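import Pool.Agent.W117.GH.Stm

/-!
Project GH: self-dual fields satisfy Maxwell's equations.
-/

set_option autoImplicit false

open scoped ContDiff ComplexConjugate
open MeasureTheory

noncomputable section

namespace Pool.Agent.W239.GHMA

open Pool.Agent.W117.GH

theorem pd_normSq (φ : ℂ → ℂ) (z : ℂ) (hφ : DifferentiableAt ℝ φ z) (ε : ℝ) (j : Fin 2) :
    pd j (fun w => 1 / 2 * (ε ^ 2 - Complex.normSq (φ w))) z =
      -((φ z).re * (pd j φ z).re + (φ z).im * (pd j φ z).im) := by
  have hre : HasFDerivAt (fun w => (φ w).re) (Complex.reCLM.comp (fderiv ℝ φ z)) z :=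
    Complex.reCLM.hasFDerivAt.comp z hφ.hasFDerivAt
  have him : HasFDerivAt (fun w => (φ w).im) (Complex.imCLM.comp (fderiv ℝ φ z)) z :=
    Complex.imCLM.hasFDerivAt.comp z hφ.hasFDerivAt
  have h := (((hre.mul hre).add (him.mul him)).const_sub (ε ^ 2)).const_mul (1 / 2 : ℝ)
  have h2 : (fun w => 1 / 2 * (ε ^ 2 - Complex.normSq (φ w))) =
      fun w => (1 / 2 : ℝ) * (ε ^ 2 - ((φ w).re * (φ w).re + (φ w).im * (φ w).im)) := by
    funext w
    rw [Complex.normSq_apply]
  unfold pd
  rw [h2]
  have h3 := h.fderiv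
  erw [h3]
  simp
  ring

theorem pd_zero' (j : Fin 2) (z : ℂ) : pd j (fun _ : ℂ => (0 : ℝ)) z = 0 := by
  unfold pd
  simp

theorem F_self (X : Fields) (j : Fin 2) (z : ℂ) : X.F j j z = 0 := by
  unfold Fields.F
  ring

theorem F_anti (X : Fields) (z : ℂ) : X.F 1 0 z = - X.F 0 1 z := by
  unfold Fields.F
  ring

theorem main : PropMA := by
  intro ε X hX j z
  have hφ : DifferentiableAt ℝ X.phi z := hX.phi_smooth.differentiable (by simp) z
  have hexp : ∀ w, Real.exp (-X.eta w) * Real.exp (-X.eta w) * Real.exp (X.eta w) *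
      (1 / 2 * Real.exp (X.eta w) * (ε ^ 2 - Complex.normSq (X.phi w))) =
      1 / 2 * (ε ^ 2 - Complex.normSq (X.phi w)) := by
    intro w
    have h1 : Real.exp (-X.eta w) * Real.exp (X.eta w) = 1 := by
      rw [← Real.exp_add]
      simp
    calc Real.exp (-X.eta w) * Real.exp (-X.eta w) * Real.exp (X.eta w) *
      (1 / 2 * Real.exp (X.eta w) * (ε ^ 2 - Complex.normSq (X.phi w))) =
        (Real.exp (-X.eta w) * Real.exp (X.eta w)) * (Real.exp (-X.eta w) * Real.exp (X.eta w)) *
          (1 / 2 * (ε ^ 2 - Complex.normSq (X.phi w))) := by ring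
      _ = _ := by rw [h1]; ring
  have hD := hX.D_eq z
  have hvol : 1 / X.vol z = Real.exp (-X.eta z) := by
    unfold Fields.vol
    rw [Real.exp_neg]
    ring
  have hDre := congrArg Complex.re hD
  have hDim := congrArg Complex.im hD
  simp only [Fields.D, Complex.sub_re, Complex.sub_im, Complex.mul_re, Complex.mul_im,
    Complex.I_re, Complex.I_im, Complex.ofReal_re, Complex.ofReal_im] at hDre hDim
  fin_cases j
  · have h01 : (fun w => X.inv 0 0 w * X.inv 1 1 w * X.vol w * X.F 0 1 w) =
        fun w => 1 / 2 * (ε ^ 2 - Complex.normSq (X.phi w)) := by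
      funext w
      rw [hX.F_eq w]
      simp only [Fields.inv, Fields.vol, if_true]
      exact hexp w
    have hL : (∑ j', ∑ k, ∑ k',
        pd j' (fun w => X.inv 0 k w * X.inv j' k' w * X.vol w * X.F k k' w) z) =
        -((X.phi z).re * (pd 1 X.phi z).re + (X.phi z).im * (pd 1 X.phi z).im) := by
      rw [← pd_normSq X.phi z hφ ε 1, ← h01]
      simp only [Fin.sum_univ_two, F_self, mul_zero, pd_zero']
      simp [Fields.inv, pd_zero']
    have hL2 : (∑ j', ∑ k, ∑ k',
        pd j' (fun w => X.inv ((fun i => i) ⟨0, by norm_num⟩) k w * X.inv j' k' w * X.vol w *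
          X.F k k' w) z) =
        -((X.phi z).re * (pd 1 X.phi z).re + (X.phi z).im * (pd 1 X.phi z).im) := hL
    rw [hL2, hvol, Fin.sum_univ_two]
    simp only [Fields.inv, Fields.D]
    generalize Real.exp (-X.eta z) = E
    apply Complex.ext
    · simp
      linear_combination (-E * (X.phi z).re) * hDre + (-E * (X.phi z).im) * hDim
    · simp
      exact Or.inr (by ring)
  · have h10 : (fun w => X.inv 1 1 w * X.inv 0 0 w * X.vol w * X.F 1 0 w) =
        fun w => -(1 / 2 * (ε ^ 2 - Complex.normSq (X.phi w))) := by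
      funext w
      rw [F_anti, hX.F_eq w]
      simp only [Fields.inv, Fields.vol, if_true]
      rw [mul_neg]
      congr 1
      exact hexp w
    have hL : (∑ j', ∑ k, ∑ k',
        pd j' (fun w => X.inv 1 k w * X.inv j' k' w * X.vol w * X.F k k' w) z) =
        ((X.phi z).re * (pd 0 X.phi z).re + (X.phi z).im * (pd 0 X.phi z).im) := by
      have h11 : pd 0 (fun w => -(1 / 2 * (ε ^ 2 - Complex.normSq (X.phi w)))) z =
          ((X.phi z).re * (pd 0 X.phi z).re + (X.phi z).im * (pd 0 X.phi z).im) := by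
        have h12 := pd_normSq X.phi z hφ ε 0
        unfold pd at h12 ⊢
        rw [fderiv_fun_neg]
        rw [neg_apply, h12]
        ring
      rw [← h11, ← h10]
      simp only [Fin.sum_univ_two, F_self, mul_zero, pd_zero']
      simp [Fields.inv, pd_zero']
    have hL2 : (∑ j', ∑ k, ∑ k',
        pd j' (fun w => X.inv ((fun i => i) ⟨1, by norm_num⟩) k w * X.inv j' k' w * X.vol w *
          X.F k k' w) z) =
        ((X.phi z).re * (pd 0 X.phi z).re + (X.phi z).im * (pd 0 X.phi z).im) := hL
    rw [hL2, hvol, Fin.sum_univ_two]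
    simp only [Fields.inv, Fields.D]
    generalize Real.exp (-X.eta z) = E
    apply Complex.ext
    · simp
      linear_combination (E * (X.phi z).im) * hDre + (-E * (X.phi z).re) * hDim
    · simp
      exact Or.inr (by ring)

end Pool.Agent.W239.GHMA
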